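import Pool.Agent.Helper46.Access.Reduce

/-!
# MP_12e671_al, Q1: no accessible graph has an induced cycle of length at least 6

Even more: no graph `G` whose binomial edge ideal is unmixed has an induced cycle of length `≥ 6`.
-/

namespace Pool.Agent.Results.MP_12e671_al.NoLongInducedCycles

universe u

variable {V : Type u} [DecidableEq V]

/-- `c_G(T)`: the number of connected components of `G \ T`. -/
noncomputable def numComp (G : SimpleGraph V) (T : Finset V) : ℕ :=
  Nat.card (G.induce {v | v ∉ T}).ConnectedComponent

/-- `T` is a cut set of `G`: `c_G(T \ {i}) < c_G(T)` for every `i ∈ T`. -/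
def IsCutSet (G : SimpleGraph V) (T : Finset V) : Prop :=
  ∀ i ∈ T, numComp G (T.erase i) < numComp G T

/-- `J_G` is unmixed, in the combinatorial form of the problem file:
`c_G(T) - |T| = c_G(∅)` for every cut set `T`. -/
def IsUnmixed (G : SimpleGraph V) : Prop :=
  ∀ T : Finset V, IsCutSet G T → (numComp G T : ℤ) - T.card = numComp G ∅

/-- `G` is accessible: `J_G` is unmixed and every nonempty cut set `T` contains some `t` such that
`T \ {t}` is a cut set. -/
def IsAccessible (G : SimpleGraph V) : Prop :=
  IsUnmixed G ∧ ∀ T : Finset V, IsCutSet G T → T.Nonempty → ∃ t ∈ T, IsCutSet G (T.erase t)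

/-- `G` has an induced cycle of length `m`: some set of vertices induces the cycle `C_m`. -/
def HasInducedCycle (G : SimpleGraph V) (m : ℕ) : Prop :=
  ∃ S : Set V, Nonempty (G.induce S ≃g SimpleGraph.cycleGraph m)

open Pool.Agent.Helper46.Access in
lemma u_of_isUnmixed [Fintype V] (G : SimpleGraph V) (hG : IsUnmixed G) :
    U G (numComp G ∅) := by
  intro T hT
  have hcut : IsCutSet G T := by
    intro t ht
    obtain ⟨K₁, K₂, h1, h2, h3, h4, h5⟩ := hT t ht
    have hlt := card_lt_of_two' (T' := T.erase t) (fun x => Finset.mem_erase) h1 h2 h3 h4 h5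
    have h6 : numComp G T = (comps G T).card := card_comps G T
    have h7 : numComp G (T.erase t) = (comps G (T.erase t)).card := card_comps G (T.erase t)
    rw [h6, h7]
    exact hlt
  have h := hG T hcut
  have h2 : numComp G T = (comps G T).card := card_comps G T
  omega

/-- **Answer to Q1 (negative), in a stronger form.** No finite graph `G` with `J_G` unmixed has an
induced cycle of length at least `6`. Accessible graphs are unmixed by definition, so no accessible
graph has one (see `accessible_no_long_cycle`). -/
theorem result (V : Type u) [Fintype V] [DecidableEq V] (G : SimpleGraph V) (hG : IsUnmixed G)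
    (m : ℕ) (hm : 6 ≤ m) : ¬ HasInducedCycle G m := by
  rintro ⟨S, ⟨e⟩⟩
  obtain ⟨f, hf⟩ := Pool.Agent.Helper46.Access.cyc_of_iso hm e
  exact Pool.Agent.Helper46.Access.no_cyc hm (u_of_isUnmixed G hG) hf

/-- The negated form of Q1, verbatim: every accessible graph has no induced cycle of length
`6` or more. -/
theorem accessible_no_long_cycle (V : Type u) [Fintype V] [DecidableEq V] (G : SimpleGraph V)
    (hG : IsAccessible G) (m : ℕ) (hm : 6 ≤ m) : ¬ HasInducedCycle G m :=
  result V G hG.1 m hm

end Pool.Agent.Results.MP_12e671_al.NoLongInducedCycles
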